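import Mathlib
import Pool.Agent.H.MP_8c175f_gt.B

namespace Pool.Agent.Results.MP_8c175f_gt.Counter

open Pool.Agent.H.MP_8c175f_gt

/-- There is a T1 space in which the closure of every discrete subset is Lindelof, with an open
cover no countable subfamily of which has dense union. -/
theorem result : ∃ (X : Type) (_ : TopologicalSpace X), T1Space X ∧
    (∀ D : Set X, DiscreteTopology D → IsLindelof (closure D)) ∧
    ∃ 𝒰 : Set (Set X), (∀ U ∈ 𝒰, IsOpen U) ∧ ⋃₀ 𝒰 = Set.univ ∧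
      ∀ 𝒱 ⊆ 𝒰, 𝒱.Countable → ¬ Dense (⋃₀ 𝒱) := by
  obtain ⟨Λ, _, _, f, lam, hg⟩ := exists_good
  refine ⟨Sp (fun b => b = true) f, inferInstance, inferInstance,
    disc_lind hg (b0 := false) (by simp), Set.range (Uo _ f), ?_, ?_,
    fun 𝒱 h1 h2 => not_weakly (G := fun b => b = true) hg (b := true) rfl 𝒱 h1 h2⟩
  · rintro _ ⟨x, rfl⟩
    exact isOpen_Uo x
  · refine Set.eq_univ_of_forall fun p => ?_
    obtain ⟨x, hx⟩ := cover_Uo hg p
    exact ⟨_, ⟨x, rfl⟩, hx⟩

end Pool.Agent.Results.MP_8c175f_gt.Counter
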